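import Pool.Agent.Lib.MP_ff6929_pr.Bound

set_option autoImplicit false

open Filter Topology Pool.Agent.Lib.MP_ff6929_pr

/-- The probability that the random `n`-lift of the complete digraph on three vertices is
Hamiltonian does not tend to `1`. -/
theorem Pool.Agent.Results.MP_ff6929_pr.NotHamiltonian.result :
    ¬ Tendsto (fun n : ℕ => hamProb (completeDigraph 3) n) atTop (𝓝 1) := by
  intro h
  have h1 : ∀ᶠ n : ℕ in atTop, (11 / 12 : ℝ) < hamProb (completeDigraph 3) n :=
    h.eventually (lt_mem_nhds (by norm_num))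
  obtain ⟨n, hn, hn'⟩ := (h1.and (eventually_ge_atTop 100)).exists
  have h2 := hamProb_le n (by omega)
  have h3 : (100 : ℝ) ≤ n := by exact_mod_cast hn'
  have h4 : ((n : ℝ) + 1) * (5 * n + 1) / (6 * n ^ 2) ≤ 11 / 12 := by
    rw [div_le_iff₀ (by positivity)]
    nlinarith
  exact absurd (hn.trans_le (h2.trans h4)) (lt_irrefl _)
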